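import Pool.Agent.J4H78.HG.Stm
import Pool.Agent.J4H42.GP.Ch

/-!
# Project HG (helper78): S_NTL (helper43)
-/

set_option autoImplicit false

open NumberField Module
open Pool.Agent.J4H78.GP (QD BQ eta)
open Pool.Agent.J4H78.HG

namespace Pool.Agent.J4H43.HG

theorem pw_nat {K : Type} [Field K] [NumberField K] (μ : InfinitePlace K → ℝ) (n : ℕ) :
    pw μ ((n : ℕ) : K) = Complex.exp ((((∑ w, μ w) * Real.log n : ℝ) : ℂ) * Complex.I) := by
  unfold pw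
  rw [← Complex.exp_sum]
  congr 1
  rw [← Finset.sum_mul, ← Complex.ofReal_sum, Finset.sum_mul]
  congr 2
  refine Finset.sum_congr rfl fun w _ => ?_
  rw [← InfinitePlace.norm_embedding_eq, map_natCast, Complex.norm_natCast]

theorem t_NTL : S_NTL := by
  intro p p' K K' L _ _ _ _ _ _ _ _ hB μ ψ ψ' hψ hψ' t
  obtain ⟨hp, hp', hne, ⟨h2, s, hs⟩, ⟨h2', s', hs'⟩, h4⟩ := hB
  by_contra hcon
  push Not at hcon
  obtain ⟨𝔟, h0, h1⟩ := hψ' (2 * t - ∑ w, μ w)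
  apply h1
  have hKL' : finrank K' L = 2 := by
    have := Module.finrank_mul_finrank ℚ K' L
    rw [h2', h4] at this
    omega
  have hfr : finrank (𝓞 K') (𝓞 L) = 2 := by
    exact (IsFractionRing.finrank_eq (𝓞 K') K' (𝓞 L) L).symm.trans hKL'
  have hN : Ideal.absNorm 𝔟 ≠ 0 := by
    rwa [Ne, Ideal.absNorm_eq_zero_iff]
  have h5 := hcon (Ideal.map (algebraMap (𝓞 K') (𝓞 L)) 𝔟) (by
    rw [Ne, Ideal.map_eq_bot_iff_of_injective (FaithfulSMul.algebraMap_injective (𝓞 K') (𝓞 L))]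
    exact h0)
  change ψ (Ideal.relNorm (𝓞 K) _) * ψ' (Ideal.relNorm (𝓞 K') _) = _ at h5
  rw [Pool.Agent.J4H42.GP.relNorm_map hp hp' hne h2 h2' h4 hs hs' 𝔟 h0, hψ _ (by
        rw [Nat.cast_ne_zero]
        exact hN), Ideal.relNorm_algebraMap, hfr, map_pow, Ideal.absNorm_algebraMap, hfr] at h5
  have e1 : (((Ideal.absNorm 𝔟 : ℕ) : 𝓞 K) : K) = ((Ideal.absNorm 𝔟 : ℕ) : K) := by
    exact map_natCast (algebraMap (𝓞 K) K) _
  rw [e1, pw_nat] at h5
  have e2 : (Real.log ((Ideal.absNorm 𝔟 ^ 2 : ℕ) : ℝ)) = 2 * Real.log (Ideal.absNorm 𝔟) := by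
    push_cast
    rw [Real.log_pow]
    push_cast
    ring
  rw [e2] at h5
  have e3 : Complex.exp ((((∑ w, μ w) * Real.log (Ideal.absNorm 𝔟) : ℝ) : ℂ) * Complex.I) ≠ 0 :=
    Complex.exp_ne_zero _
  apply mul_left_cancel₀ e3
  rw [h5, ← Complex.exp_add]
  congr 1
  push_cast
  ring

end Pool.Agent.J4H43.HG
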