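import Pool.Agent.J4H78.HG.Stm

/-!
# Project HG (helper78): S_TYP (helper43)
-/

set_option autoImplicit false

open NumberField Module
open Pool.Agent.J4H78.GP (QD BQ eta)
open Pool.Agent.J4H78.HG

namespace Pool.Agent.J4H43.HG

section

variable {K L : Type} [Field K] [NumberField K] [Field L] [NumberField L] [Algebra K L]

/-- the embeddings of a totally real field are real -/
theorem conj_emb [IsTotallyReal L] (φ : L →+* ℂ) : ComplexEmbedding.conjugate φ = φ := by
  exact InfinitePlace.isReal_mk_iff.mp (IsTotallyReal.isReal (InfinitePlace.mk φ))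

theorem mk_inj [IsTotallyReal L] {φ ψ : L →+* ℂ} (h : InfinitePlace.mk φ = InfinitePlace.mk ψ) :
    φ = ψ := by
  rw [InfinitePlace.mk_eq_iff] at h
  rcases h with h | h
  · exact h
  · rwa [conj_emb] at h

theorem emb_mk [IsTotallyReal L] (φ : L →+* ℂ) : (InfinitePlace.mk φ).embedding = φ :=
  mk_inj (InfinitePlace.mk_embedding _)

open Classical in
/-- the absolute value at `v` of the relative norm -/
theorem norm_place [IsTotallyReal L] (x : L) (v : InfinitePlace K) :
    v (Algebra.norm K x) = ∏ w ∈ Finset.univ.filter (fun w : InfinitePlace L => w.comap (algebraMap K L) = v), w x := by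
  letI : Algebra K ℂ := v.embedding.toAlgebra
  have h1 : v (Algebra.norm K x) = ‖algebraMap K ℂ (Algebra.norm K x)‖ := by
    rw [← InfinitePlace.norm_embedding_eq]
    rfl
  have hv : ∀ σ : L →ₐ[K] ℂ, σ.toRingHom.comp (algebraMap K L) = v.embedding := fun σ => σ.comp_algebraMap
  rw [h1, Algebra.norm_eq_prod_embeddings K ℂ x, norm_prod]
  refine Finset.prod_bij (i := fun (σ : L →ₐ[K] ℂ) _ => InfinitePlace.mk σ.toRingHom) ?_ ?_ ?_ ?_
  · intro σ _
    rw [Finset.mem_filter]
    refine ⟨Finset.mem_univ _, ?_⟩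
    rw [InfinitePlace.comap_mk, hv, InfinitePlace.mk_embedding]
  · intro σ _ τ _ h
    have := mk_inj h
    exact AlgHom.ext fun y => RingHom.congr_fun this y
  · intro w hw
    rw [Finset.mem_filter] at hw
    have h2 : InfinitePlace.mk (w.embedding.comp (algebraMap K L)) = v := by
      rw [← InfinitePlace.comap_mk, InfinitePlace.mk_embedding]
      exact hw.2
    have h3 : w.embedding.comp (algebraMap K L) = v.embedding := by
      have h4 := h2
      rw [← InfinitePlace.mk_embedding v, InfinitePlace.mk_eq_iff] at h4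
      rcases h4 with h4 | h4
      · exact h4
      · rw [← h4]
        ext y
        have h5 := RingHom.congr_fun (conj_emb w.embedding) (algebraMap K L y)
        rw [ComplexEmbedding.conjugate_coe_eq] at h5
        rw [ComplexEmbedding.conjugate_coe_eq, RingHom.comp_apply]
        exact h5.symm
    refine ⟨⟨w.embedding, fun y => ?_⟩, Finset.mem_univ _, ?_⟩
    · exact RingHom.congr_fun h3 y
    · exact InfinitePlace.mk_embedding w
  · intro σ _
    rw [InfinitePlace.apply]
    rfl

theorem pw_norm [IsTotallyReal L] (μ : InfinitePlace K → ℝ) (x : L) (hx : x ≠ 0) :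
    pw μ (Algebra.norm K x) = ∏ w : InfinitePlace L,
      Complex.exp (((μ (w.comap (algebraMap K L)) * Real.log (w x) : ℝ) : ℂ) * Complex.I) := by
  classical
  unfold pw
  rw [← Finset.prod_fiberwise_of_maps_to (s := Finset.univ) (t := Finset.univ)
    (g := fun w : InfinitePlace L => w.comap (algebraMap K L)) (fun _ _ => Finset.mem_univ _)]
  refine Finset.prod_congr rfl fun v _ => ?_
  rw [norm_place, Real.log_prod (fun w _ => by rw [Ne, map_eq_zero]; exact hx), ← Complex.exp_sum,
    ← Finset.sum_mul, ← Complex.ofReal_sum, Finset.mul_sum]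
  congr 3
  refine Finset.sum_congr rfl fun w hw => ?_
  rw [(Finset.mem_filter.mp hw).2]

end

theorem t_TYP : S_TYP := by
  intro p p' K K' L _ _ _ _ _ _ _ _ _ hB μ μ' ψ ψ' hψ hψ' x hx
  change ψ (Ideal.relNorm (𝓞 K) (Ideal.span {x})) * ψ' (Ideal.relNorm (𝓞 K') (Ideal.span {x})) = _
  rw [Ideal.relNorm_singleton, Ideal.relNorm_singleton, hψ _ (Algebra.intNorm_ne_zero.mpr hx),
    hψ' _ (Algebra.intNorm_ne_zero.mpr hx)]
  have hx' : (x : L) ≠ 0 := by
    rw [Ne, RingOfIntegers.coe_eq_zero_iff]
    exact hx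
  have e1 : ((Algebra.intNorm (𝓞 K) (𝓞 L) x : 𝓞 K) : K) = Algebra.norm K (x : L) :=
    Algebra.algebraMap_intNorm (L := L) x
  have e2 : ((Algebra.intNorm (𝓞 K') (𝓞 L) x : 𝓞 K') : K') = Algebra.norm K' (x : L) :=
    Algebra.algebraMap_intNorm (L := L) x
  rw [e1, e2, pw_norm μ _ hx', pw_norm μ' _ hx', ← Finset.prod_mul_distrib]
  refine Finset.prod_congr rfl fun w _ => ?_
  rw [← Complex.exp_add]
  congr 1
  push_cast
  ring

end Pool.Agent.J4H43.HG
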